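import Mathlib

/-!
# The `k`-property of the levels of the free topological vector space over a metrizable space
-/

set_option autoImplicit false

open Set Topology Filter

universe u v

namespace Pool.Agent.Results.MP_24cde2_gt.FreeTVS

/-- `Z` is a `k`-space: a set `C` is closed whenever `C ∩ K` is closed in `K` for every compact
`K ⊆ Z`. -/
def IsKSpace (Z : Type u) [TopologicalSpace Z] : Prop :=
  ∀ C : Set Z, (∀ K : Set Z, IsCompact K → IsClosed (Subtype.val ⁻¹' C : Set K)) → IsClosed C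

/-- `i : X → V` is the free (Hausdorff) topological vector space over `X`: `V` is a Hausdorff
real topological vector space, `i` is continuous, and every continuous map `f` from `X` into a
Hausdorff real topological vector space `E` is `F ∘ i` for a unique continuous linear
`F : V → E`. -/
structure IsFreeTVS {X V : Type u} [TopologicalSpace X] [AddCommGroup V] [Module ℝ V]
    [TopologicalSpace V] (i : X → V) : Prop where
  isTopologicalAddGroup : IsTopologicalAddGroup V
  continuousSMul : ContinuousSMul ℝ V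
  t2Space : T2Space V
  continuous : Continuous i
  existsUnique_lift : ∀ (E : Type u) [AddCommGroup E] [Module ℝ E] [TopologicalSpace E]
    [IsTopologicalAddGroup E] [ContinuousSMul ℝ E] [T2Space E] (f : X → E), Continuous f →
    ∃! F : V →L[ℝ] E, ∀ x, F (i x) = f x

/-- `sp_n(X)`. -/
def sp {X V : Type u} [AddCommGroup V] [Module ℝ V] (i : X → V) (n : ℕ) : Set V :=
  {v | ∃ (l : Fin n → ℝ) (x : Fin n → X), (∀ j, l j ∈ Icc (-(n : ℝ)) n) ∧
    v = ∑ j, l j • i (x j)}

/-! ### Products of `k_ω`-topologies -/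

section komega

variable {Y : Type u} [TopologicalSpace Y]

/-- The topology determined by the sets `B n`. -/
@[instance_reducible]
def kTop (B : ℕ → Set Y) : TopologicalSpace Y where
  IsOpen U := ∀ n, ∀ y ∈ B n, y ∈ U → U ∈ 𝓝[B n] y
  isOpen_univ := fun _ _ _ _ => univ_mem
  isOpen_inter := fun _ _ hs ht n y hy hyU => inter_mem (hs n y hy hyU.1) (ht n y hy hyU.2)
  isOpen_sUnion := by
    rintro S hS n y hy ⟨s, hs, hys⟩
    exact mem_of_superset (hS s hs n y hy hys) (subset_sUnion_of_mem hs)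

lemma kTop_isOpen_iff (B : ℕ → Set Y) (U : Set Y) :
    IsOpen[kTop B] U ↔ ∀ n, ∀ y ∈ B n, y ∈ U → U ∈ 𝓝[B n] y := Iff.rfl

lemma kTop_le (B : ℕ → Set Y) : kTop B ≤ ‹TopologicalSpace Y› := by
  intro U hU n y hy hyU
  exact mem_nhdsWithin_of_mem_nhds (hU.mem_nhds hyU)

variable {Z : Type v} [TopologicalSpace Z]

lemma step [T2Space Y] [T2Space Z] {B A : Set Y} {C D : Set Z} {W : Set (Y × Z)}
    (hB : IsCompact B) (hC : IsCompact C) (hA : IsCompact A) (hD : IsCompact D)
    (hAB : A ⊆ B) (hDC : D ⊆ C) (hADW : A ×ˢ D ⊆ W)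
    (hW : ∀ p ∈ B ×ˢ C, p ∈ W → W ∈ 𝓝[B ×ˢ C] p) :
    ∃ (A' : Set Y) (D' : Set Z), IsCompact A' ∧ IsCompact D' ∧ A' ⊆ B ∧ D' ⊆ C ∧ A' ×ˢ D' ⊆ W ∧
      (∀ y ∈ A, A' ∈ 𝓝[B] y) ∧ ∀ z ∈ D, D' ∈ 𝓝[C] z := by
  -- an open neighbourhood of `A × D`
  have h1 : ∀ p : Y × Z, ∃ N : Set (Y × Z), IsOpen N ∧ (p ∈ A ×ˢ D → p ∈ N) ∧
      N ∩ (B ×ˢ C) ⊆ W := by
    intro p
    by_cases hp : p ∈ A ×ˢ D
    · obtain ⟨N, hN1, hN2, hN3⟩ :=
        mem_nhdsWithin.1 (hW p ⟨hAB hp.1, hDC hp.2⟩ (hADW hp))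
      exact ⟨N, hN1, fun _ => hN2, hN3⟩
    · exact ⟨∅, isOpen_empty, fun h => absurd h hp, by simp⟩
  choose N hN1 hN2 hN3 using h1
  obtain ⟨u, v, hu, hv, hAu, hDv, huv⟩ := generalized_tube_lemma hA hD
    (isOpen_iUnion hN1) (fun p hp => mem_iUnion.2 ⟨p, hN2 p hp⟩)
  obtain ⟨O, O', hO, hO', hAO, hBO', hOO'⟩ :=
    SeparatedNhds.of_isCompact_isCompact hA (hB.diff hu)
      (disjoint_left.2 fun y hy hy' => hy'.2 (hAu hy))
  obtain ⟨P, P', hP, hP', hDP, hCP', hPP'⟩ :=
    SeparatedNhds.of_isCompact_isCompact hD (hC.diff hv)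
      (disjoint_left.2 fun y hy hy' => hy'.2 (hDv hy))
  refine ⟨B \ O', C \ P', hB.diff hO', hC.diff hP', sdiff_subset, sdiff_subset, ?_, ?_, ?_⟩
  · rintro ⟨y, z⟩ ⟨⟨hy1, hy2⟩, hz1, hz2⟩
    have hyu : y ∈ u := by
      by_contra h; exact hy2 (hBO' ⟨hy1, h⟩)
    have hzv : z ∈ v := by
      by_contra h; exact hz2 (hCP' ⟨hz1, h⟩)
    obtain ⟨p, hp⟩ := mem_iUnion.1 (huv (show ((y, z) : Y × Z) ∈ u ×ˢ v from ⟨hyu, hzv⟩))
    exact hN3 p ⟨hp, hy1, hz1⟩
  · intro y hy
    filter_upwards [mem_nhdsWithin_of_mem_nhds (hO.mem_nhds (hAO hy)), self_mem_nhdsWithin]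
      with w hw1 hw2
    exact ⟨hw2, disjoint_left.1 hOO' hw1⟩
  · intro y hy
    filter_upwards [mem_nhdsWithin_of_mem_nhds (hP.mem_nhds (hDP hy)), self_mem_nhdsWithin]
      with w hw1 hw2
    exact ⟨hw2, disjoint_left.1 hPP' hw1⟩

/-- The product of two `k_ω`-topologies is determined by the products of the compact sets. -/
theorem prod_kTop [T2Space Y] [T2Space Z] {B : ℕ → Set Y} {C : ℕ → Set Z}
    (hB : ∀ n, IsCompact (B n)) (hC : ∀ n, IsCompact (C n)) (hBm : Monotone B) (hCm : Monotone C)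
    {W : Set (Y × Z)} (hW : ∀ n, ∀ p ∈ B n ×ˢ C n, p ∈ W → W ∈ 𝓝[B n ×ˢ C n] p)
    {n₀ : ℕ} {y₀ : Y} {z₀ : Z} (hy₀ : y₀ ∈ B n₀) (hz₀ : z₀ ∈ C n₀) (h₀ : (y₀, z₀) ∈ W) :
    ∃ (U₁ : Set Y) (U₂ : Set Z), IsOpen[kTop B] U₁ ∧ IsOpen[kTop C] U₂ ∧ y₀ ∈ U₁ ∧ z₀ ∈ U₂ ∧
      U₁ ×ˢ U₂ ⊆ W := by
  let G : ℕ → Set Y × Set Z → Prop := fun n q => IsCompact q.1 ∧ IsCompact q.2 ∧
    q.1 ⊆ B (n₀ + n) ∧ q.2 ⊆ C (n₀ + n) ∧ q.1 ×ˢ q.2 ⊆ W
  have hstep : ∀ (n : ℕ) (q : {q : Set Y × Set Z // G n q}), ∃ q' : {q : Set Y × Set Z //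
      G (n + 1) q}, (∀ y ∈ q.1.1, q'.1.1 ∈ 𝓝[B (n₀ + (n + 1))] y) ∧
      ∀ z ∈ q.1.2, q'.1.2 ∈ 𝓝[C (n₀ + (n + 1))] z := by
    rintro n ⟨⟨A, D⟩, hA, hD, hAB, hDC, hAD⟩
    obtain ⟨A', D', h1, h2, h3, h4, h5, h6, h7⟩ := step (hB (n₀ + (n + 1))) (hC (n₀ + (n + 1)))
      hA hD (hAB.trans (hBm (by omega))) (hDC.trans (hCm (by omega))) hAD (hW _)
    exact ⟨⟨⟨A', D'⟩, h1, h2, h3, h4, h5⟩, h6, h7⟩
  choose next hnext1 hnext2 using hstep
  let s : ∀ n, {q : Set Y × Set Z // G n q} := fun n =>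
    Nat.rec ⟨({y₀}, {z₀}), isCompact_singleton, isCompact_singleton,
      singleton_subset_iff.2 hy₀, singleton_subset_iff.2 hz₀, by
        rw [singleton_prod_singleton]; exact singleton_subset_iff.2 h₀⟩ (fun n q => next n q) n
  have hs0 : (s 0).1 = ({y₀}, {z₀}) := rfl
  have hs : ∀ n, s (n + 1) = next n (s n) := fun n => rfl
  have hmono1 : Monotone fun n => (s n).1.1 := monotone_nat_of_le_succ fun n y hy => by
    have h1 := hnext1 n (s n) y hy
    rw [← hs] at h1
    exact mem_of_mem_nhdsWithin (hBm (by omega) ((s n).2.2.2.1 hy)) h1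
  have hmono2 : Monotone fun n => (s n).1.2 := monotone_nat_of_le_succ fun n y hy => by
    have h1 := hnext2 n (s n) y hy
    rw [← hs] at h1
    exact mem_of_mem_nhdsWithin (hCm (by omega) ((s n).2.2.2.2.1 hy)) h1
  refine ⟨⋃ n, (s n).1.1, ⋃ n, (s n).1.2, ?_, ?_, ?_, ?_, ?_⟩
  · intro m y hy hyU
    obtain ⟨n, hn⟩ := mem_iUnion.1 hyU
    have h1 := hnext1 (max n m) (s (max n m)) y (hmono1 (le_max_left n m) hn)
    rw [← hs] at h1
    refine mem_of_superset (nhdsWithin_mono y (hBm ?_) h1) 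
      (subset_iUnion (fun n => (s n).1.1) (max n m + 1))
    have := le_max_right n m
    omega
  · intro m y hy hyU
    obtain ⟨n, hn⟩ := mem_iUnion.1 hyU
    have h1 := hnext2 (max n m) (s (max n m)) y (hmono2 (le_max_left n m) hn)
    rw [← hs] at h1
    refine mem_of_superset (nhdsWithin_mono y (hCm ?_) h1) 
      (subset_iUnion (fun n => (s n).1.2) (max n m + 1))
    have := le_max_right n m
    omega
  · exact mem_iUnion.2 ⟨0, by rw [hs0]; exact rfl⟩
  · exact mem_iUnion.2 ⟨0, by rw [hs0]; exact rfl⟩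
  · rintro ⟨y, z⟩ ⟨hy, hz⟩
    obtain ⟨n, hn⟩ := mem_iUnion.1 hy
    obtain ⟨m, hm⟩ := mem_iUnion.1 hz
    exact (s (max n m)).2.2.2.2.2 ⟨hmono1 (le_max_left n m) hn, hmono2 (le_max_right n m) hm⟩

end komega

/-! ### The `k_ω`-topology of a vector space -/

section vector

variable {V : Type u} [AddCommGroup V] [Module ℝ V] [TopologicalSpace V]

theorem kTop_isTopologicalAddGroup [IsTopologicalAddGroup V] [ContinuousSMul ℝ V] [T2Space V]
    {B : ℕ → Set V} (hB : ∀ n, IsCompact (B n)) (hBm : Monotone B) (hcov : ∀ v, ∃ n, v ∈ B n)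
    (hadd : ∀ n, ∃ m, ∀ v ∈ B n, ∀ w ∈ B n, v + w ∈ B m)
    (hsmul : ∀ n : ℕ, ∃ m, ∀ t ∈ Icc (-(n : ℝ)) n, ∀ v ∈ B n, t • v ∈ B m) :
    @IsTopologicalAddGroup V (kTop B) _ ∧ @ContinuousSMul ℝ V _ _ (kTop B) := by
  have h1 : @ContinuousAdd V (kTop B) _ := by
    refine @ContinuousAdd.mk V (kTop B) _ ?_
    rw [@continuous_def _ _ (@instTopologicalSpaceProd V V (kTop B) (kTop B)) (kTop B)]
    intro U hU
    rw [@isOpen_prod_iff V V (kTop B) (kTop B)]
    intro a b hab
    obtain ⟨n₁, hn₁⟩ := hcov a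
    obtain ⟨n₂, hn₂⟩ := hcov b
    have hW : ∀ n, ∀ p ∈ B n ×ˢ B n, p ∈ (fun p : V × V => p.1 + p.2) ⁻¹' U →
        (fun p : V × V => p.1 + p.2) ⁻¹' U ∈ 𝓝[B n ×ˢ B n] p := by
      rintro n ⟨v, w⟩ ⟨hv, hw⟩ hvw
      obtain ⟨m, hm⟩ := hadd n
      have h6 : Tendsto (fun p : V × V => p.1 + p.2) (𝓝[B n ×ˢ B n] (v, w)) (𝓝[B m] (v + w)) := by
        refine tendsto_nhdsWithin_iff.2 ⟨?_, ?_⟩
        · exact (continuous_add.tendsto (v, w)).mono_left nhdsWithin_le_nhds
        · filter_upwards [self_mem_nhdsWithin] with p hp using hm _ hp.1 _ hp.2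
      exact h6 (hU m _ (hm v hv w hw) hvw)
    exact prod_kTop hB hB hBm hBm hW
      (hBm (le_max_left n₁ n₂) hn₁) (hBm (le_max_right n₁ n₂) hn₂) hab
  have h2 : @ContinuousSMul ℝ V _ _ (kTop B) := by
    refine @ContinuousSMul.mk ℝ V _ _ (kTop B) ?_
    rw [@continuous_def _ _ (@instTopologicalSpaceProd ℝ V _ (kTop B)) (kTop B)]
    intro U hU
    rw [@isOpen_prod_iff ℝ V _ (kTop B)]
    intro a b hab
    obtain ⟨n₁, hn₁⟩ := exists_nat_ge |a|
    obtain ⟨n₂, hn₂⟩ := hcov b
    have hCm : Monotone fun n : ℕ => Icc (-(n : ℝ)) n := by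
      intro n m hnm
      have : (n : ℝ) ≤ m := Nat.cast_le.2 hnm
      exact Icc_subset_Icc (neg_le_neg this) this
    have hW : ∀ n : ℕ, ∀ p ∈ Icc (-(n : ℝ)) n ×ˢ B n, p ∈ (fun p : ℝ × V => p.1 • p.2) ⁻¹' U →
        (fun p : ℝ × V => p.1 • p.2) ⁻¹' U ∈ 𝓝[Icc (-(n : ℝ)) n ×ˢ B n] p := by
      rintro n ⟨t, w⟩ ⟨ht, hw⟩ htw
      obtain ⟨m, hm⟩ := hsmul n
      have h6 : Tendsto (fun p : ℝ × V => p.1 • p.2) (𝓝[Icc (-(n : ℝ)) n ×ˢ B n] (t, w))
          (𝓝[B m] (t • w)) := by
        refine tendsto_nhdsWithin_iff.2 ⟨?_, ?_⟩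
        · exact (continuous_smul.tendsto (t, w)).mono_left nhdsWithin_le_nhds
        · filter_upwards [self_mem_nhdsWithin] with p hp using hm _ hp.1 _ hp.2
      exact h6 (hU m _ (hm t ht w hw) htw)
    obtain ⟨U₁, U₂, h1, h2, h3, h4, h5⟩ := prod_kTop (B := fun n : ℕ => Icc (-(n : ℝ)) n)
      (fun n => isCompact_Icc) hB hCm hBm hW
      (hCm (le_max_left n₁ n₂) (abs_le.1 hn₁)) (hBm (le_max_right n₁ n₂) hn₂) hab
    refine ⟨U₁, U₂, ?_, h2, h3, h4, h5⟩
    refine isOpen_iff_mem_nhds.2 fun x hx => ?_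
    obtain ⟨n, hn⟩ := exists_nat_gt |x|
    have hx1 : Icc (-(n : ℝ)) n ∈ 𝓝 x := Icc_mem_nhds (abs_lt.1 hn).1 (abs_lt.1 hn).2
    have hx2 := h1 n x (mem_of_mem_nhds hx1) hx
    rwa [nhdsWithin_eq_nhds.2 hx1] at hx2
  refine ⟨?_, h2⟩
  have h3 : @ContinuousNeg V (kTop B) _ := by
    refine @ContinuousNeg.mk V (kTop B) _ ?_
    have h5 : (fun v : V => -v) = fun v : V => (-1 : ℝ) • v := by
      ext v; simp
    rw [h5]
    let _ := kTop B
    exact continuous_id.const_smul (-1 : ℝ)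
  exact @IsTopologicalAddGroup.mk V (kTop B) _ h1 h3

end vector

/-! ### Linear combinations with bounded coefficients -/

section levels

variable {X V : Type u} [TopologicalSpace X] [AddCommGroup V] [Module ℝ V] [TopologicalSpace V]
  {i : X → V}

/-- Linear combinations of `n` points of `S` with coefficients bounded by `c`. -/
def spc (i : X → V) (S : Set X) (c : ℝ) (n : ℕ) : Set V :=
  {v | ∃ (l : Fin n → ℝ) (x : Fin n → X), (∀ j, l j ∈ Icc (-c) c) ∧ (∀ j, x j ∈ S) ∧
    v = ∑ j, l j • i (x j)}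

omit [TopologicalSpace X] [TopologicalSpace V] in
lemma sp_eq (n : ℕ) : sp i n = spc i univ n n := by
  ext v
  simp [sp, spc]

lemma isCompact_spc [ContinuousAdd V] [ContinuousSMul ℝ V] (hi : Continuous i) {S : Set X}
    (hS : IsCompact S) (c : ℝ) (n : ℕ) : IsCompact (spc i S c n) := by
  have h1 : IsCompact ((univ.pi fun _ : Fin n => Icc (-c) c) ×ˢ (univ.pi fun _ : Fin n => S)) :=
    (isCompact_univ_pi fun _ => isCompact_Icc).prod (isCompact_univ_pi fun _ => hS)
  have h2 : Continuous fun p : (Fin n → ℝ) × (Fin n → X) => ∑ j, p.1 j • i (p.2 j) := by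
    refine continuous_finsetSum _ fun j _ => ?_
    exact ((continuous_apply j).comp continuous_fst).smul
      (hi.comp ((continuous_apply j).comp continuous_snd))
  convert h1.image h2 using 1
  ext v
  constructor
  · rintro ⟨l, x, hl, hx, rfl⟩
    exact ⟨(l, x), ⟨fun j _ => hl j, fun j _ => hx j⟩, rfl⟩
  · rintro ⟨⟨l, x⟩, ⟨hl, hx⟩, rfl⟩
    exact ⟨l, x, fun j => hl j trivial, fun j => hx j trivial, rfl⟩

omit [TopologicalSpace X] [TopologicalSpace V] in
lemma add_mem_spc {S : Set X} {c : ℝ} {n m : ℕ} {v w : V} (hv : v ∈ spc i S c n)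
    (hw : w ∈ spc i S c m) : v + w ∈ spc i S c (n + m) := by
  obtain ⟨l, x, hl, hx, rfl⟩ := hv
  obtain ⟨l', x', hl', hx', rfl⟩ := hw
  refine ⟨Fin.append l l', Fin.append x x', ?_, ?_, ?_⟩
  · intro j
    refine Fin.addCases (fun j => ?_) (fun j => ?_) j
    · rw [Fin.append_left]; exact hl j
    · rw [Fin.append_right]; exact hl' j
  · intro j
    refine Fin.addCases (fun j => ?_) (fun j => ?_) j
    · rw [Fin.append_left]; exact hx j
    · rw [Fin.append_right]; exact hx' j
  · rw [Fin.sum_univ_add]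
    simp only [Fin.append_left, Fin.append_right]

omit [TopologicalSpace X] [TopologicalSpace V] in
lemma zero_mem_spc {S : Set X} {c : ℝ} (hc : 0 ≤ c) (hS : S.Nonempty) (n : ℕ) :
    (0 : V) ∈ spc i S c n := by
  obtain ⟨x, hx⟩ := hS
  exact ⟨0, fun _ => x, fun j => ⟨by simpa using hc, by simpa using hc⟩, fun _ => hx, by simp⟩

omit [TopologicalSpace X] [TopologicalSpace V] in
lemma spc_mono {S S' : Set X} {c c' : ℝ} {n n' : ℕ} (hS : S ⊆ S') (hS' : S'.Nonempty)
    (hc : c ≤ c') (hc' : 0 ≤ c') (hn : n ≤ n') : spc i S c n ⊆ spc i S' c' n' := by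
  intro v hv
  obtain ⟨k, rfl⟩ := Nat.exists_eq_add_of_le hn
  have h1 : v ∈ spc i S' c' n := by
    obtain ⟨l, x, hl, hx, rfl⟩ := hv
    exact ⟨l, x, fun j => ⟨(neg_le_neg hc).trans (hl j).1, (hl j).2.trans hc⟩,
      fun j => hS (hx j), rfl⟩
  have h2 := add_mem_spc h1 (zero_mem_spc (i := i) hc' hS' k)
  rwa [add_zero] at h2

omit [TopologicalSpace X] [TopologicalSpace V] in
lemma smul_mem_spc {S : Set X} {c d : ℝ} {n : ℕ} {v : V} {t : ℝ} (hv : v ∈ spc i S c n)
    (ht : t ∈ Icc (-d) d) : t • v ∈ spc i S (d * c) n := by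
  obtain ⟨l, x, hl, hx, rfl⟩ := hv
  refine ⟨fun j => t * l j, x, fun j => ?_, hx, ?_⟩
  · refine abs_le.1 ?_
    rw [abs_mul]
    have h1 := abs_le.2 ht
    have h2 := abs_le.2 (hl j)
    exact mul_le_mul h1 h2 (abs_nonneg _) ((abs_nonneg _).trans h1)
  · rw [Finset.smul_sum]
    simp only [smul_smul]

lemma span_eq_top (h : IsFreeTVS i) : Submodule.span ℝ (range i) = ⊤ := by
  have := h.isTopologicalAddGroup
  have := h.continuousSMul
  have := h.t2Space
  let W := Submodule.span ℝ (range i)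
  let f : X → W := fun x => ⟨i x, Submodule.subset_span (mem_range_self x)⟩
  have hf : Continuous f := h.continuous.subtype_mk _
  obtain ⟨F, hF, -⟩ := h.existsUnique_lift W f hf
  obtain ⟨G, hG, hG'⟩ := h.existsUnique_lift V i h.continuous
  have h1 : W.subtypeL.comp F = G := hG' _ fun x => by
    have := hF x
    simp [this, f]
  have h2 : ContinuousLinearMap.id ℝ V = G := hG' _ fun x => rfl
  rw [eq_top_iff]
  intro v _
  have h3 : W.subtypeL.comp F v = ContinuousLinearMap.id ℝ V v := by rw [h1, h2]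
  have h4 : ((F v : W) : V) = v := h3
  rw [← h4]
  exact (F v).2

lemma exists_mem_spc (h : IsFreeTVS i) [Nonempty X] (v : V) :
    ∃ n : ℕ, v ∈ spc i univ n n := by
  have hv : v ∈ Submodule.span ℝ (range i) := by rw [span_eq_top h]; trivial
  induction hv using Submodule.span_induction with
  | mem x hx =>
    obtain ⟨y, rfl⟩ := hx
    refine ⟨1, fun _ => 1, fun _ => y, fun _ => ?_, fun _ => trivial, by simp⟩
    constructor <;> norm_num
  | zero => exact ⟨0, zero_mem_spc (by simp) univ_nonempty _⟩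
  | add x y _ _ hx hy =>
    obtain ⟨n, hn⟩ := hx
    obtain ⟨m, hm⟩ := hy
    have hn' : x ∈ spc i univ ((n + m : ℕ) : ℝ) n :=
      spc_mono Subset.rfl univ_nonempty (by push_cast; linarith [(Nat.cast_nonneg m : (0:ℝ) ≤ m)])
        (by positivity) le_rfl hn
    have hm' : y ∈ spc i univ ((n + m : ℕ) : ℝ) m :=
      spc_mono Subset.rfl univ_nonempty (by push_cast; linarith [(Nat.cast_nonneg n : (0:ℝ) ≤ n)])
        (by positivity) le_rfl hm
    exact ⟨n + m, add_mem_spc hn' hm'⟩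
  | smul a x _ hx =>
    obtain ⟨n, hn⟩ := hx
    obtain ⟨m, hm⟩ := exists_nat_ge |a|
    have h1 := smul_mem_spc hn (abs_le.1 hm)
    refine ⟨m * n + n, spc_mono Subset.rfl univ_nonempty ?_ (by positivity) (by omega) h1⟩
    push_cast
    linarith [(Nat.cast_nonneg n : (0:ℝ) ≤ n)]

lemma exists_linear (h : IsFreeTVS i) (E : Type u) [AddCommGroup E] [Module ℝ E]
    [TopologicalSpace E] [IsTopologicalAddGroup E] [ContinuousSMul ℝ E] [T2Space E] (f : X → E)
    (hf : Continuous f) : ∃ F : V →ₗ[ℝ] E, Continuous F ∧ ∀ x, F (i x) = f x := by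
  obtain ⟨F, hF, -⟩ := h.existsUnique_lift E f hf
  exact ⟨F.toLinearMap, F.cont, hF⟩

/-- The value at `∑ l_j x_j` of the extension of a continuous real function. -/
lemma exists_lift (h : IsFreeTVS i) (f : X → ℝ) (hf : Continuous f) :
    ∃ F : V →L[ℝ] ℝ, ∀ x, F (i x) = f x := by
  obtain ⟨F, hF, -⟩ := h.existsUnique_lift (ULift.{u} ℝ) (fun x => ULift.up (f x))
    (continuous_uliftUp.comp hf)
  refine ⟨{ toFun := fun v => (F v).down, map_add' := ?_, map_smul' := ?_, cont := ?_ }, ?_⟩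
  · intro v w
    rw [map_add]; rfl
  · intro c v
    rw [map_smul]; rfl
  · exact continuous_uliftDown.comp F.continuous
  · intro x
    change (F (i x)).down = f x
    rw [hF]

lemma linearIndependent [T4Space X] (h : IsFreeTVS i) : LinearIndependent ℝ i := by
  classical
  rw [linearIndependent_iff']
  intro s g hg x hx
  obtain ⟨f, hf0, hf1, -⟩ := exists_continuous_zero_one_of_isClosed
    (s := ((s.erase x : Finset X) : Set X)) (t := {x}) (Finset.finite_toSet _).isClosed
    isClosed_singleton (by simp)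
  obtain ⟨F, hF⟩ := exists_lift h f f.continuous
  have h1 := congrArg F hg
  rw [map_sum, map_zero] at h1
  rw [Finset.sum_eq_single x] at h1
  · rw [map_smul, hF, hf1 rfl] at h1
    simpa using h1
  · intro y hy hyx
    rw [map_smul, hF, hf0 (by simpa using ⟨hy, hyx⟩)]
    simp
  · exact fun h => absurd hx h

lemma mem_spc_of_mem [T4Space X] (h : IsFreeTVS i) {S : Set X} (hS : S.Nonempty) {c : ℝ}
    {n : ℕ} {v : V} (hv : v ∈ spc i univ c n) {d : ℝ} {m : ℕ} (hv' : v ∈ spc i S d m) (hc : 0 ≤ c) :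
    v ∈ spc i S c n := by
  classical
  obtain ⟨x₀, hx₀⟩ := hS
  obtain ⟨l, x, hl, -, rfl⟩ := hv
  let a : V := ∑ j, (if x j ∈ S then l j else 0) • i (x j)
  let b : V := ∑ j, (if x j ∈ S then 0 else l j) • i (x j)
  have hab : ∑ j, l j • i (x j) = a + b := by
    simp only [a, b]
    rw [← Finset.sum_add_distrib]
    refine Finset.sum_congr rfl fun j _ => ?_
    by_cases hj : x j ∈ S <;> simp [hj]
  have ha : a ∈ Submodule.span ℝ (i '' S) := by
    refine Submodule.sum_mem _ fun j _ => ?_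
    by_cases hj : x j ∈ S
    · exact Submodule.smul_mem _ _ (Submodule.subset_span ⟨_, hj, rfl⟩)
    · simp [hj]
  have hb : b ∈ Submodule.span ℝ (i '' Sᶜ) := by
    refine Submodule.sum_mem _ fun j _ => ?_
    by_cases hj : x j ∈ S
    · simp [hj]
    · exact Submodule.smul_mem _ _ (Submodule.subset_span ⟨_, hj, rfl⟩)
  have hb' : b ∈ Submodule.span ℝ (i '' S) := by
    have h1 : ∑ j, l j • i (x j) ∈ Submodule.span ℝ (i '' S) := by
      obtain ⟨l', x', -, hx', h2⟩ := hv'
      rw [h2]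
      exact Submodule.sum_mem _ fun j _ =>
        Submodule.smul_mem _ _ (Submodule.subset_span ⟨_, hx' j, rfl⟩)
    rw [hab] at h1
    have h2 := Submodule.sub_mem _ h1 ha
    rwa [add_sub_cancel_left] at h2
  have hb0 : b = 0 := by
    have h1 := (linearIndependent h).disjoint_span_image (disjoint_compl_right (a := S))
    exact Submodule.disjoint_def.1 h1 b hb' hb
  rw [hab, hb0, add_zero]
  refine ⟨fun j => if x j ∈ S then l j else 0, fun j => if x j ∈ S then x j else x₀, ?_, ?_, ?_⟩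
  · intro j
    by_cases hj : x j ∈ S
    · simp only [if_pos hj]; exact hl j
    · simp only [if_neg hj]
      exact ⟨by simpa using hc, hc⟩
  · intro j
    by_cases hj : x j ∈ S
    · simp only [if_pos hj]; exact hj
    · simp only [if_neg hj]; exact hx₀
  · refine Finset.sum_congr rfl fun j _ => ?_
    by_cases hj : x j ∈ S <;> simp [hj]

/-- If `X` has an increasing sequence of compact sets whose interiors cover `X`, then `V(X)` has
the topology determined by the sets `spc i (K n) n n`. -/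
theorem isClosed_of_forall (h : IsFreeTVS i) {K : ℕ → Set X} (hK : ∀ n, IsCompact (K n))
    (hKm : Monotone K) (hKne : ∀ n, (K n).Nonempty) (hKnhds : ∀ x, ∃ n, K n ∈ 𝓝 x) {C : Set V}
    (hC : ∀ n : ℕ, IsClosed (C ∩ spc i (K n) n n)) : IsClosed C := by
  have := h.isTopologicalAddGroup
  have := h.continuousSMul
  have := h.t2Space
  have hX : Nonempty X := ⟨(hKne 0).some⟩
  let B : ℕ → Set V := fun n => spc i (K n) n n
  have hB : ∀ n, IsCompact (B n) := fun n => isCompact_spc h.continuous (hK n) _ _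
  have hBm : Monotone B := fun n m hnm => spc_mono (hKm hnm) (hKne m) (Nat.cast_le.2 hnm)
    (Nat.cast_nonneg m) hnm
  have hcov : ∀ v, ∃ n, v ∈ B n := by
    intro v
    obtain ⟨n, l, x, hl, -, rfl⟩ := exists_mem_spc h v
    have h1 : ∀ j, ∀ᶠ m in atTop, x j ∈ K m := by
      intro j
      obtain ⟨m, hm⟩ := hKnhds (x j)
      filter_upwards [eventually_ge_atTop m] with k hk using hKm hk (mem_of_mem_nhds hm)
    obtain ⟨m, hm1, hm2⟩ := ((eventually_all.2 h1).and (eventually_ge_atTop n)).exists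
    exact ⟨m, spc_mono Subset.rfl (hKne m) (Nat.cast_le.2 hm2) (Nat.cast_nonneg m) hm2
      ⟨l, x, hl, hm1, rfl⟩⟩
  have hadd : ∀ n, ∃ m, ∀ v ∈ B n, ∀ w ∈ B n, v + w ∈ B m := by
    intro n
    refine ⟨n + n, fun v hv w hw => ?_⟩
    exact spc_mono (hKm (by omega)) (hKne _) (by push_cast; linarith [(Nat.cast_nonneg n : (0:ℝ) ≤ n)])
      (by positivity) le_rfl (add_mem_spc hv hw)
  have hsmul : ∀ n : ℕ, ∃ m, ∀ t ∈ Icc (-(n : ℝ)) n, ∀ v ∈ B n, t • v ∈ B m := by
    intro n
    refine ⟨n * n + n, fun t ht v hv => ?_⟩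
    exact spc_mono (hKm (by omega)) (hKne _)
      (by push_cast; linarith [(Nat.cast_nonneg n : (0:ℝ) ≤ n)]) (by positivity) (by omega)
      (smul_mem_spc hv ht)
  obtain ⟨hAG, hSM⟩ := kTop_isTopologicalAddGroup hB hBm hcov hadd hsmul
  have hT2 : @T2Space V (kTop B) := by
    refine @T2Space.mk V (kTop B) fun x y hxy => ?_
    obtain ⟨u, v, hu, hv, hxu, hyv, huv⟩ := t2_separation hxy
    exact ⟨u, v, kTop_le B u hu, kTop_le B v hv, hxu, hyv, huv⟩
  have hcont : @Continuous X V _ (kTop B) i := by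
    rw [@continuous_def X V _ (kTop B)]
    intro U hU
    refine isOpen_iff_mem_nhds.2 fun x hx => ?_
    obtain ⟨n, hn⟩ := hKnhds x
    have hsub : ∀ y ∈ K n, i y ∈ B (n + 1) := by
      intro y hy
      have h1 : i y ∈ spc i (K n) 1 1 :=
        ⟨fun _ => 1, fun _ => y, fun _ => by constructor <;> norm_num, fun _ => hy, by simp⟩
      exact spc_mono (hKm (by omega)) (hKne _)
        (by push_cast; linarith [(Nat.cast_nonneg n : (0:ℝ) ≤ n)]) (by positivity) (by omega) h1
    have h1 : Tendsto i (𝓝 x) (𝓝[B (n + 1)] (i x)) := by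
      refine tendsto_nhdsWithin_iff.2 ⟨h.continuous.tendsto x, ?_⟩
      filter_upwards [hn] with y hy using hsub y hy
    exact h1 (hU (n + 1) (i x) (hsub x (mem_of_mem_nhds hn)) hx)
  obtain ⟨F, hFc, hF⟩ := @exists_linear X V _ _ _ _ i h V _ _ (kTop B) hAG hSM hT2 i hcont
  have h1 : F = LinearMap.id := by
    refine LinearMap.ext_on (span_eq_top h) ?_
    rintro _ ⟨x, rfl⟩
    exact hF x
  rw [h1] at hFc
  have h4 : @Continuous V V _ (kTop B) id := hFc
  have h5 : IsOpen[kTop B] Cᶜ := by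
    intro n y hy hyC
    have h6 : (C ∩ B n)ᶜ ∈ 𝓝 y := (hC n).isOpen_compl.mem_nhds fun h => hyC h.1
    filter_upwards [mem_nhdsWithin_of_mem_nhds h6, self_mem_nhdsWithin] with z hz1 hz2 hz3
    exact hz1 ⟨hz3, hz2⟩
  exact ⟨(@continuous_def V V _ (kTop B) id).1 h4 _ h5⟩

/-- The levels of `V(X)` are `k`-spaces. -/
theorem isKSpace_sp [T4Space X] (h : IsFreeTVS i) {K : ℕ → Set X} (hK : ∀ n, IsCompact (K n))
    (hKm : Monotone K) (hKne : ∀ n, (K n).Nonempty) (hKnhds : ∀ x, ∃ n, K n ∈ 𝓝 x) (n : ℕ) :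
    IsKSpace (sp i n) := by
  have := h.isTopologicalAddGroup
  have := h.continuousSMul
  have := h.t2Space
  intro C hC
  have h1 : IsClosed (Subtype.val '' C) := by
    refine isClosed_of_forall h hK hKm hKne hKnhds fun m => ?_
    -- the part of `sp i n` in the compact set
    let L : Set V := spc i (K m) n n ∩ spc i (K m) m m
    have hL : IsCompact L := (isCompact_spc h.continuous (hK m) _ _).inter
      (isCompact_spc h.continuous (hK m) _ _)
    have hLsp : L ⊆ sp i n := by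
      rintro v ⟨⟨l, x, hl, -, rfl⟩, -⟩
      exact ⟨l, x, hl, rfl⟩
    have h2 : Subtype.val '' C ∩ spc i (K m) m m = Subtype.val '' (C ∩ Subtype.val ⁻¹' L) := by
      ext v
      constructor
      · rintro ⟨⟨w, hw, rfl⟩, hv⟩
        refine ⟨w, ⟨hw, ?_, hv⟩, rfl⟩
        have h3 : (w : V) ∈ spc i univ n n := by rw [← sp_eq]; exact w.2
        exact mem_spc_of_mem h (hKne m) h3 hv (Nat.cast_nonneg n)
      · rintro ⟨w, ⟨hw1, hw2⟩, rfl⟩
        exact ⟨⟨w, hw1, rfl⟩, hw2.2⟩
    rw [h2]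
    have hL' : IsCompact (Subtype.val ⁻¹' L : Set (sp i n)) := by
      rw [Subtype.isCompact_iff, Subtype.image_preimage_coe, inter_eq_right.2 hLsp]
      exact hL
    have h3 : IsCompact (C ∩ Subtype.val ⁻¹' L) := by
      have h4 := hC _ hL'
      have h5 : IsCompact (Subtype.val ⁻¹' C : Set (Subtype.val ⁻¹' L : Set (sp i n))) := by
        have : CompactSpace (Subtype.val ⁻¹' L : Set (sp i n)) := isCompact_iff_compactSpace.1 hL'
        exact h4.isCompact
      have h6 := h5.image continuous_subtype_val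
      rwa [Subtype.image_preimage_coe, inter_comm] at h6
    exact (h3.image continuous_subtype_val).isClosed
  have h2 := h1.preimage (continuous_subtype_val (p := (· ∈ sp i n)))
  rwa [preimage_image_eq _ Subtype.val_injective] at h2

end levels

/-! ### The case of a metrizable space whose second level is a `k`-space -/

section metric

/-- A continuous nonnegative function which is large on a sequence without cluster points. -/
lemma exists_large {X : Type u} [MetricSpace X] (a : ℕ → X)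
    (ha : ∀ x, ∃ ε > 0, {k | dist (a k) x < ε}.Finite) (s : ℕ → ℝ) (hs : ∀ k, 0 ≤ s k) :
    ∃ f : X → ℝ, Continuous f ∧ (∀ x, 0 ≤ f x) ∧ ∀ k, s k ≤ f (a k) := by
  classical
  let g : ℕ → X → ℝ := fun k x => s k * max 0 (1 - ((k : ℝ) + 1) * dist x (a k))
  have hg0 : ∀ k x, 0 ≤ g k x := fun k x => mul_nonneg (hs k) (le_max_left _ _)
  have hgc : ∀ k, Continuous (g k) := fun k =>
    continuous_const.mul (continuous_const.max (continuous_const.sub
      (continuous_const.mul (continuous_id.dist continuous_const))))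
  have hlf : LocallyFinite fun k => Function.support (g k) := by
    intro x
    obtain ⟨ε, hε, hfin⟩ := ha x
    obtain ⟨N, hN⟩ := exists_nat_one_div_lt (half_pos hε)
    refine ⟨Metric.ball x (ε / 2), Metric.ball_mem_nhds _ (half_pos hε), ?_⟩
    refine (hfin.union (finite_le_nat N)).subset ?_
    rintro k ⟨y, hy1, hy2⟩
    by_contra hcon
    simp only [mem_union, mem_ofPred_eq, not_or, not_lt, not_le] at hcon
    obtain ⟨h1, h2⟩ := hcon
    apply hy1
    have h3 : dist y (a k) > ε / 2 := by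
      have h4 : dist (a k) x ≤ dist y (a k) + dist y x := by
        rw [dist_comm y (a k)]; exact dist_triangle _ _ _
      have h5 : dist y x < ε / 2 := hy2
      linarith
    have h6 : (1 : ℝ) / ((k : ℝ) + 1) ≤ 1 / ((N : ℝ) + 1) := by
      apply one_div_le_one_div_of_le (by positivity)
      have : (N : ℝ) ≤ k := by exact_mod_cast h2.le
      linarith
    have h7 : (1 : ℝ) / ((k : ℝ) + 1) < dist y (a k) := by linarith
    have h8 : 1 < ((k : ℝ) + 1) * dist y (a k) := by
      rw [div_lt_iff₀ (by positivity)] at h7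
      linarith
    simp only [g]
    rw [max_eq_left (by linarith), mul_zero]
  refine ⟨fun x => ∑ᶠ k, g k x, continuous_finsum hgc hlf, fun x => finsum_nonneg fun k => hg0 k x,
    fun k => ?_⟩
  have h1 : g k (a k) = s k := by simp [g]
  have hfin : (Function.support fun j => g j (a k)).Finite := by
    refine (hlf.point_finite (a k)).subset ?_
    intro j hj
    exact hj
  change s k ≤ ∑ᶠ j, g j (a k)
  rw [finsum_eq_sum _ hfin]
  by_cases hk : g k (a k) = 0
  · rw [← h1, hk]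
    exact Finset.sum_nonneg fun j _ => hg0 j _
  · rw [← h1]
    exact Finset.single_le_sum (f := fun j => g j (a k)) (fun j _ => hg0 j _)
      (hfin.mem_toFinset.2 hk)

variable {X V : Type u} [MetricSpace X] [AddCommGroup V] [Module ℝ V] [TopologicalSpace V]
  {i : X → V}

/-- No compact subset of `V(X)` contains `t_k (a_k + b_k)` for all `k` if `(a_k)` is a sequence
without cluster points and `t_k > 0`. -/
lemma not_compact (h : IsFreeTVS i) (a b : ℕ → X)
    (ha : ∀ x, ∃ ε > 0, {k | dist (a k) x < ε}.Finite) (t : ℕ → ℝ) (ht : ∀ k, 0 < t k) {K : Set V}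
    (hK : IsCompact K) : ¬ ∀ k, t k • (i (a k) + i (b k)) ∈ K := by
  intro hmem
  obtain ⟨f, hfc, hf0, hf⟩ := exists_large a ha (fun k => (k : ℝ) / t k)
    (fun k => div_nonneg (Nat.cast_nonneg k) (ht k).le)
  obtain ⟨F, hF⟩ := exists_lift h f hfc
  obtain ⟨M, hM⟩ := (hK.image F.continuous).isBounded.bddAbove
  obtain ⟨k, hk⟩ := exists_nat_gt M
  have h1 := hM ⟨_, hmem k, rfl⟩
  rw [map_smul, map_add, hF, hF, smul_eq_mul] at h1
  have h2 : (k : ℝ) ≤ t k * f (a k) := by
    have := hf k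
    rw [div_le_iff₀ (ht k)] at this
    linarith
  have h3 : 0 ≤ t k * f (b k) := mul_nonneg (ht k).le (hf0 _)
  nlinarith

/-- The basic argument: a set of points `t (a + b)` of `sp_2(X)` which accumulates to `0` meets
some compact set in an infinite set. -/
lemma exists_infinite (h : IsFreeTVS i) (hk : IsKSpace (sp i 2)) {ι : Type v} (a b : ι → X)
    (t : ι → ℝ) (ht : ∀ p, 0 < t p) (ht1 : ∀ p, t p ≤ 1)
    (h0 : ∀ U : Set V, U ∈ 𝓝 0 → ∃ p, t p • (i (a p) + i (b p)) ∈ U) :
    ∃ K : Set V, IsCompact K ∧ {p | t p • (i (a p) + i (b p)) ∈ K}.Infinite := by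
  have := h.isTopologicalAddGroup
  have := h.continuousSMul
  have := h.t2Space
  by_contra hcon
  push Not at hcon
  obtain ⟨p₀, -⟩ := h0 univ univ_mem
  have hsp : ∀ (l : ℝ) (x y : X), 0 ≤ l → l ≤ 1 → l • (i x + i y) ∈ sp i 2 := by
    intro l x y h1 h2
    refine ⟨fun _ => l, ![x, y], fun _ => ⟨?_, ?_⟩, ?_⟩
    · push_cast; linarith
    · push_cast; linarith
    · simp [Fin.sum_univ_two, smul_add]
  let C : Set (sp i 2) := range fun p => ⟨t p • (i (a p) + i (b p)), hsp _ _ _ (ht p).le (ht1 p)⟩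
  have hC : IsClosed C := by
    refine hk C fun K hK => ?_
    have h1 : (C ∩ K).Finite := by
      have h2 := hcon _ (hK.image continuous_subtype_val)
      refine (h2.image fun p => (⟨t p • (i (a p) + i (b p)),
        hsp _ _ _ (ht p).le (ht1 p)⟩ : sp i 2)).subset ?_
      rintro _ ⟨⟨p, rfl⟩, hp⟩
      exact ⟨p, ⟨_, hp, rfl⟩, rfl⟩
    have h2 : (Subtype.val ⁻¹' C : Set K) = Subtype.val ⁻¹' (C ∩ K) := by
      ext x; simp
    rw [h2]
    exact h1.isClosed.preimage continuous_subtype_val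
  let z : sp i 2 := ⟨0, by
    have := hsp 0 (a p₀) (b p₀) le_rfl zero_le_one
    rwa [zero_smul] at this⟩
  have hz : z ∈ C := by
    rw [← hC.closure_eq, mem_closure_iff_nhds]
    intro U hU
    obtain ⟨U', hU', hUU'⟩ := mem_nhds_induced _ _ _ |>.1 hU
    obtain ⟨p, hp⟩ := h0 U' hU'
    exact ⟨_, hUU' (show _ ∈ U' from hp), p, rfl⟩
  obtain ⟨p, hp⟩ := hz
  obtain ⟨F, hF⟩ := exists_lift h (fun _ => (1 : ℝ)) continuous_const
  have h1 : F (t p • (i (a p) + i (b p))) = 0 := by
    have h2 : t p • (i (a p) + i (b p)) = 0 := congrArg Subtype.val hp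
    rw [h2, map_zero]
  rw [map_smul, map_add, hF, hF, smul_eq_mul] at h1
  have := ht p
  linarith

/-- A maximal separated set. -/
lemma exists_separated {X : Type u} [MetricSpace X] (hX : ¬ SecondCountableTopology X) :
    ∃ ε > 0, ∃ D : Set X, ¬ D.Countable ∧ ∀ x ∈ D, ∀ y ∈ D, x ≠ y → ε < dist x y := by
  have h1 : ∃ ε > (0 : ℝ), ∀ s : Set X, s.Countable → ∃ x, ∀ y ∈ s, ε < dist x y := by
    by_contra hcon
    push Not at hcon
    exact hX (Metric.secondCountable_of_almost_dense_set hcon)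
  obtain ⟨ε, hε, h1⟩ := h1
  refine ⟨ε, hε, ?_⟩
  have h2 : ∀ c ⊆ {D : Set X | ∀ x ∈ D, ∀ y ∈ D, x ≠ y → ε < dist x y}, IsChain (· ⊆ ·) c →
      ∃ ub ∈ {D : Set X | ∀ x ∈ D, ∀ y ∈ D, x ≠ y → ε < dist x y}, ∀ s ∈ c, s ⊆ ub := by
    intro c hc hchain
    refine ⟨⋃₀ c, ?_, fun s hs => subset_sUnion_of_mem hs⟩
    rintro x ⟨s, hs, hxs⟩ y ⟨t, ht, hyt⟩ hxy
    rcases hchain.total hs ht with hst | hst
    · exact hc ht x (hst hxs) y hyt hxy
    · exact hc hs x hxs y (hst hyt) hxy
  obtain ⟨D, hD⟩ := zorn_subset _ h2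
  refine ⟨D, fun hcount => ?_, hD.1⟩
  obtain ⟨x, hx⟩ := h1 D hcount
  have hxD : x ∉ D := fun h => by
    have := hx x h
    rw [dist_self] at this
    linarith
  have h3 : insert x D ∈ {D : Set X | ∀ x ∈ D, ∀ y ∈ D, x ≠ y → ε < dist x y} := by
    rintro y (rfl | hy) z (rfl | hz) hyz
    · exact absurd rfl hyz
    · exact hx z hz
    · rw [dist_comm]; exact hx y hy
    · exact hD.1 y hy z hz hyz
  exact hxD (hD.2 h3 (subset_insert x D) (mem_insert x D))

lemma separated_finite {X : Type u} [MetricSpace X] {ε : ℝ} (hε : 0 < ε) {D : Set X}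
    (hD : ∀ x ∈ D, ∀ y ∈ D, x ≠ y → ε < dist x y) (a : ℕ → X) (ha : ∀ k, a k ∈ D)
    (hinj : Function.Injective a) (x : X) : ∃ δ > 0, {k | dist (a k) x < δ}.Finite := by
  refine ⟨ε / 2, half_pos hε, Set.Subsingleton.finite ?_⟩
  intro k hk l hl
  by_contra hne
  have h1 := hD _ (ha k) _ (ha l) (fun h => hne (hinj h))
  have h2 : dist (a k) (a l) ≤ dist (a k) x + dist (a l) x := by
    rw [dist_comm (a l) x]; exact dist_triangle _ _ _
  have h3 : dist (a k) x < ε / 2 := hk
  have h4 : dist (a l) x < ε / 2 := hl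
  linarith

lemma tendsto_one_div_smul [ContinuousSMul ℝ V] (v : V) :
    Tendsto (fun n : ℕ => (1 / ((n : ℝ) + 1)) • v) atTop (𝓝 0) := by
  have h1 : Tendsto (fun n : ℕ => 1 / ((n : ℝ) + 1)) atTop (𝓝 0) :=
    tendsto_one_div_add_atTop_nhds_zero_nat
  have h2 := h1.smul_const v
  rwa [zero_smul] at h2

/-- If `sp_2(X)` is a `k`-space then `X` is separable. -/
theorem secondCountable (h : IsFreeTVS i) (hk : IsKSpace (sp i 2)) :
    SecondCountableTopology X := by
  have := h.isTopologicalAddGroup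
  have := h.continuousSMul
  have := h.t2Space
  by_contra hX
  obtain ⟨ε, hε, D, hD1, hD2⟩ := exists_separated hX
  have h1 : Cardinal.aleph 1 ≤ Cardinal.mk D := by
    rw [← Cardinal.succ_aleph0, Order.succ_le_iff]
    rwa [← not_le, Cardinal.mk_le_aleph0_iff, Set.countable_coe_iff]
  obtain ⟨E, hED, hE⟩ := Cardinal.le_mk_iff_exists_subset.1 h1
  have hφ : ∃ φ : E → (ℕ → Bool), Function.Injective φ := by
    have h2 : Cardinal.lift.{0} (Cardinal.mk E) ≤ Cardinal.lift.{u} (Cardinal.mk (ℕ → Bool)) := by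
      rw [hE]
      simp only [Cardinal.lift_aleph, Cardinal.mk_pi, Cardinal.mk_bool, Cardinal.prod_const,
        Cardinal.mk_nat, Cardinal.lift_aleph0, Cardinal.lift_ofNat, Cardinal.lift_power]
      simpa using Cardinal.aleph_one_le_continuum
    obtain ⟨e⟩ := Cardinal.lift_mk_le'.1 h2
    exact ⟨e, e.injective⟩
  obtain ⟨φ, hφ⟩ := hφ
  have hEunc : ¬ E.Countable := by
    intro hc
    have h2 := Cardinal.mk_le_aleph0_iff.2 hc.to_subtype
    rw [hE] at h2
    exact absurd h2 (not_le.2 Cardinal.aleph0_lt_aleph_one)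
  let Δ : {p : E × E // p.1 ≠ p.2} → ℕ := fun p => PiNat.firstDiff (φ p.1.1) (φ p.1.2)
  have h0 : ∀ U : Set V, U ∈ 𝓝 0 → ∃ p : {p : E × E // p.1 ≠ p.2},
      (1 / ((Δ p : ℝ) + 1)) • (i p.1.1 + i p.1.2) ∈ U := by
    intro U hU
    obtain ⟨U', hU', hUU'⟩ := exists_nhds_zero_half hU
    have h2 : ∀ x : E, ∃ n : ℕ, ∀ k ≥ n, (1 / ((k : ℝ) + 1)) • i x ∈ U' := by
      intro x
      exact eventually_atTop.1 ((tendsto_one_div_smul (i x)).eventually hU')
    choose n hn using h2
    have h3 : ∃ N, {x : E | n x ≤ N}.Infinite := by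
      by_contra hcon
      push Not at hcon
      apply hEunc
      have h4 : (univ : Set E) = ⋃ N, {x : E | n x ≤ N} := by
        ext x
        simp only [mem_univ, mem_iUnion, mem_ofPred_eq, true_iff]
        exact ⟨n x, le_rfl⟩
      have h5 : (univ : Set E).Countable := by
        rw [h4]; exact countable_iUnion fun N => (hcon N).countable
      exact Set.countable_coe_iff.1 (Set.countable_univ_iff.1 h5)
    obtain ⟨N, hN⟩ := h3
    have hinf : Infinite {x : E | n x ≤ N} := hN.to_subtype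
    obtain ⟨x, y, hxy, hxy'⟩ := Finite.exists_ne_map_eq_of_infinite
      fun (x : {x : E | n x ≤ N}) (j : Fin N) => φ x.1 j
    have hne : x.1 ≠ y.1 := fun h => hxy (Subtype.ext h)
    refine ⟨⟨(x.1, y.1), hne⟩, ?_⟩
    have h4 : N ≤ PiNat.firstDiff (φ x.1) (φ y.1) := by
      by_contra hlt
      push Not at hlt
      have h5 := PiNat.apply_firstDiff_ne (fun h => hne (hφ h) : φ x.1 ≠ φ y.1)
      exact h5 (congrFun hxy' ⟨_, hlt⟩)
    rw [smul_add]
    exact hUU' _ (hn x.1 _ (le_trans x.2 h4)) _ (hn y.1 _ (le_trans y.2 h4))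
  obtain ⟨K, hK, hinf⟩ := exists_infinite h hk (fun p : {p : E × E // p.1 ≠ p.2} => (p.1.1 : X))
    (fun p => (p.1.2 : X)) (fun p => 1 / ((Δ p : ℝ) + 1)) (fun p => by positivity)
    (fun p => by
      rw [div_le_one (by positivity)]
      linarith [(Nat.cast_nonneg (Δ p) : (0 : ℝ) ≤ Δ p)]) h0
  set P := {p : {p : E × E // p.1 ≠ p.2} |
    (1 / ((Δ p : ℝ) + 1)) • (i (p.1.1 : X) + i (p.1.2 : X)) ∈ K} with hP
  by_cases hA : ((fun p : {p : E × E // p.1 ≠ p.2} => p.1.1) '' P).Infinite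
  · let e := hA.natEmbedding
    choose p hp1 hp2 using fun k => (e k).2
    have hinj : Function.Injective fun k => ((p k).1.1 : X) := by
      intro k l hkl
      apply e.injective
      apply Subtype.ext
      rw [← hp2 k, ← hp2 l]
      exact Subtype.ext hkl
    exact not_compact h (fun k => ((p k).1.1 : X)) (fun k => ((p k).1.2 : X))
      (separated_finite hε hD2 _ (fun k => hED (p k).1.1.2) hinj)
      (fun k => 1 / ((Δ (p k) : ℝ) + 1)) (fun k => by positivity) hK hp1
  · by_cases hB : ((fun p : {p : E × E // p.1 ≠ p.2} => p.1.2) '' P).Infinite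
    · let e := hB.natEmbedding
      choose p hp1 hp2 using fun k => (e k).2
      have hinj : Function.Injective fun k => ((p k).1.2 : X) := by
        intro k l hkl
        apply e.injective
        apply Subtype.ext
        rw [← hp2 k, ← hp2 l]
        exact Subtype.ext hkl
      refine not_compact h (fun k => ((p k).1.2 : X)) (fun k => ((p k).1.1 : X))
        (separated_finite hε hD2 _ (fun k => hED (p k).1.2.2) hinj)
        (fun k => 1 / ((Δ (p k) : ℝ) + 1)) (fun k => by positivity) hK fun k => ?_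
      have := hp1 k
      rw [hP, mem_ofPred_eq] at this
      rwa [add_comm (i ((p k).1.2 : X))]
    · rw [not_infinite] at hA hB
      refine hinf ((Finite.of_finite_image (f := Subtype.val) ?_
        Subtype.val_injective.injOn))
      refine (hA.prod hB).subset ?_
      rintro _ ⟨p, hp, rfl⟩
      exact ⟨⟨p, hp, rfl⟩, ⟨p, hp, rfl⟩⟩

/-- A sequence without cluster points in a noncompact closed ball. -/
lemma exists_seq {X : Type u} [MetricSpace X] (x₀ : X) (r : ℝ)
    (hr : ¬ IsCompact (Metric.closedBall x₀ r)) : ∃ a : ℕ → X, (∀ k, dist (a k) x₀ ≤ r) ∧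
      ∀ x, ∃ ε > 0, {k | dist (a k) x < ε}.Finite := by
  rw [isCompact_iff_isSeqCompact, IsSeqCompact] at hr
  push Not at hr
  obtain ⟨a, ha1, ha2⟩ := hr
  refine ⟨a, ha1, fun x => ?_⟩
  by_contra hcon
  push Not at hcon
  have h1 : MapClusterPt x atTop a := by
    rw [mapClusterPt_iff_frequently]
    intro s hs
    obtain ⟨ε, hε, hεs⟩ := Metric.mem_nhds_iff.1 hs
    have h2 := hcon ε hε
    have h3 : ∃ᶠ k in atTop, dist (a k) x < ε := by
      rw [← Nat.cofinite_eq_atTop]
      exact frequently_cofinite_iff_infinite.2 h2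
    exact h3.mono fun k hk => hεs hk
  obtain ⟨ψ, hψ1, hψ2⟩ := h1.tendsto_subseq
  have hx : x ∈ Metric.closedBall x₀ r :=
    Metric.isClosed_closedBall.mem_of_tendsto hψ2 (Eventually.of_forall fun k => ha1 _)
  exact ha2 x hx ψ hψ1 hψ2

/-- If `sp_2(X)` is a `k`-space then `X` is locally compact. -/
theorem locallyCompact (h : IsFreeTVS i) (hk : IsKSpace (sp i 2)) :
    LocallyCompactSpace X := by
  have := h.isTopologicalAddGroup
  have := h.continuousSMul
  have := h.t2Space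
  suffices hw : WeaklyLocallyCompactSpace X by infer_instance
  refine ⟨fun x₀ => ?_⟩
  by_contra hcon
  push Not at hcon
  have h1 : ∀ m : ℕ, ∃ a : ℕ → X, (∀ k, dist (a k) x₀ ≤ 1 / ((m : ℝ) + 1)) ∧
      ∀ x, ∃ ε > 0, {k | dist (a k) x < ε}.Finite := by
    intro m
    refine exists_seq x₀ _ fun hc => ?_
    exact hcon _ hc (Metric.closedBall_mem_nhds x₀ (by positivity))
  choose a ha1 ha2 using h1
  have h0 : ∀ U : Set V, U ∈ 𝓝 0 → ∃ p : ℕ × ℕ,
      (1 / ((p.2 : ℝ) + 1)) • (i (a 0 p.1) + i (a p.1 p.2)) ∈ U := by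
    intro U hU
    obtain ⟨U₁, hU₁, hUU₁⟩ := exists_nhds_zero_half hU
    obtain ⟨U₂, ⟨hU₂, hbal⟩, hU₂₁⟩ := (nhds_basis_balanced ℝ V).mem_iff.1 hU₁
    have h2 : Tendsto (fun x => i x - i x₀) (𝓝 x₀) (𝓝 0) := by
      have := (h.continuous.tendsto x₀).sub_const (i x₀)
      rwa [sub_self] at this
    obtain ⟨δ, hδ, hδ'⟩ := Metric.mem_nhds_iff.1 (h2 hU₂)
    obtain ⟨m, hm⟩ := exists_nat_one_div_lt hδ
    obtain ⟨b, hb⟩ := ((tendsto_one_div_smul (i x₀ + i (a 0 m))).eventually hU₁).exists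
    refine ⟨(m, b), ?_⟩
    have h3 : i (a m b) - i x₀ ∈ U₂ := hδ' (show dist (a m b) x₀ < δ from (ha1 m b).trans_lt hm)
    have h4 : (1 / ((b : ℝ) + 1)) • (i (a m b) - i x₀) ∈ U₂ := by
      refine hbal.smul_mem ?_ h3
      rw [Real.norm_of_nonneg (by positivity), div_le_one (by positivity)]
      linarith [(Nat.cast_nonneg b : (0 : ℝ) ≤ b)]
    have h5 := hUU₁ _ (hU₂₁ h4) _ hb
    rw [← smul_add] at h5
    convert h5 using 2
    abel
  obtain ⟨K, hK, hinf⟩ := exists_infinite h hk (fun p : ℕ × ℕ => a 0 p.1)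
    (fun p => a p.1 p.2) (fun p => 1 / ((p.2 : ℝ) + 1)) (fun p => by positivity)
    (fun p => by
      rw [div_le_one (by positivity)]
      linarith [(Nat.cast_nonneg p.2 : (0 : ℝ) ≤ p.2)]) h0
  set P := {p : ℕ × ℕ | (1 / ((p.2 : ℝ) + 1)) • (i (a 0 p.1) + i (a p.1 p.2)) ∈ K} with hP
  by_cases hA : (Prod.fst '' P).Infinite
  · let e := hA.natEmbedding
    choose p hp1 hp2 using fun k => (e k).2
    refine not_compact h (fun k => a 0 (p k).1) (fun k => a (p k).1 (p k).2) (fun x => ?_)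
      (fun k => 1 / (((p k).2 : ℝ) + 1)) (fun k => by positivity) hK hp1
    obtain ⟨ε, hε, hfin⟩ := ha2 0 x
    refine ⟨ε, hε, ?_⟩
    refine Finite.preimage (f := fun k => (p k).1) ?_ hfin
    intro k _ l _ hkl
    apply e.injective
    apply Subtype.ext
    rw [← hp2 k, ← hp2 l]
    exact hkl
  · rw [not_infinite] at hA
    have h2 : ∃ m, {b | (m, b) ∈ P}.Infinite := by
      by_contra hcon'
      push Not at hcon'
      refine hinf ((hA.biUnion fun m _ => (hcon' m).image fun b => (m, b)).subset ?_)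
      rintro ⟨m, b⟩ hmb
      exact mem_biUnion (mem_image_of_mem _ hmb) ⟨b, hmb, rfl⟩
    obtain ⟨m, hm⟩ := h2
    let e := hm.natEmbedding
    refine not_compact h (fun k => a m (e k)) (fun _ => a 0 m) (fun x => ?_)
      (fun k => 1 / (((e k : ℕ) : ℝ) + 1)) (fun k => by positivity) hK fun k => ?_
    · obtain ⟨ε, hε, hfin⟩ := ha2 m x
      refine ⟨ε, hε, ?_⟩
      refine Finite.preimage (f := fun k => (e k : ℕ)) ?_ hfin
      intro k _ l _ hkl
      exact e.injective (Subtype.ext hkl)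
    · have h3 : (1 / (((e k : ℕ) : ℝ) + 1)) • (i (a 0 m) + i (a m (e k))) ∈ K := (e k).2
      rwa [add_comm (i (a m (e k)))]

end metric

/-! ### Existence of the free topological vector space -/

/-- The vector space topologies on `X →₀ ℝ` for which `X` is mapped continuously. -/
def vecTops (X : Type u) [TopologicalSpace X] : Set (TopologicalSpace (X →₀ ℝ)) :=
  {τ | @IsTopologicalAddGroup (X →₀ ℝ) τ _ ∧ @ContinuousSMul ℝ (X →₀ ℝ) _ _ τ ∧
    @Continuous X (X →₀ ℝ) _ τ (fun x => Finsupp.single x 1)}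

lemma induced_mem {X : Type u} [TopologicalSpace X] {E : Type v} [AddCommGroup E] [Module ℝ E]
    [τ : TopologicalSpace E] [IsTopologicalAddGroup E] [ContinuousSMul ℝ E] (f : X → E)
    (hf : Continuous f) :
    TopologicalSpace.induced (Finsupp.linearCombination ℝ f) τ ∈ vecTops X := by
  refine ⟨topologicalAddGroup_induced _, continuousSMul_induced _, ?_⟩
  rw [continuous_induced_rng]
  have : (⇑(Finsupp.linearCombination ℝ f) ∘ fun x => Finsupp.single x 1) = f := by
    ext x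
    simp
  rw [this]
  exact hf

theorem exists_free (X : Type u) [TopologicalSpace X] [T35Space X] :
    ∃ (V : Type u) (_ : AddCommGroup V) (_ : Module ℝ V) (_ : TopologicalSpace V) (i : X → V),
      IsFreeTVS i := by
  let τ : TopologicalSpace (X →₀ ℝ) := sInf (vecTops X)
  have hcont : ∀ (E : Type u) [AddCommGroup E] [Module ℝ E] [TopologicalSpace E]
      [IsTopologicalAddGroup E] [ContinuousSMul ℝ E] (f : X → E), Continuous f →
      Continuous (Finsupp.linearCombination ℝ f) := by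
    intro E _ _ _ _ _ f hf
    exact continuous_iff_le_induced.2 (sInf_le (induced_mem f hf))
  have hcontR : ∀ (f : X → ℝ), Continuous f → Continuous (Finsupp.linearCombination ℝ f) := by
    intro f hf
    exact continuous_iff_le_induced.2 (sInf_le (induced_mem f hf))
  refine ⟨X →₀ ℝ, inferInstance, inferInstance, τ, fun x => Finsupp.single x 1, ?_, ?_, ?_, ?_, ?_⟩
  · exact topologicalAddGroup_sInf fun t ht => ht.1
  · exact continuousSMul_sInf fun t ht => ht.2.1
  · refine ⟨fun v w hvw => ?_⟩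
    have h1 : v - w ≠ 0 := sub_ne_zero.2 hvw
    obtain ⟨x₀, hx₀⟩ := Finsupp.support_nonempty_iff.2 h1
    classical
    obtain ⟨f, hf1, hf2, hf3⟩ := CompletelyRegularSpace.completely_regular x₀
      ((((v - w).support.erase x₀ : Finset X)) : Set X) (Finset.finite_toSet _).isClosed
      (by simp)
    let g : X → ℝ := fun x => 1 - (f x : ℝ)
    have hg : Continuous g := continuous_const.sub (continuous_subtype_val.comp hf1)
    refine separated_by_continuous (hcontR g hg) fun h2 => ?_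
    have h3 : Finsupp.linearCombination ℝ g (v - w) = 0 := by
      rw [map_sub, h2, sub_self]
    rw [Finsupp.linearCombination_apply, Finsupp.sum, Finset.sum_eq_single x₀] at h3
    · simp only [g, hf2] at h3
      rw [Finsupp.mem_support_iff] at hx₀
      simp at h3
      exact hx₀ (by simpa using h3)
    · intro y hy hyx
      have h4 := hf3 (show y ∈ ((((v - w).support.erase x₀ : Finset X)) : Set X) by
        rw [Finset.mem_coe, Finset.mem_erase]; exact ⟨hyx, hy⟩)
      simp [g, h4]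
    · exact fun h => absurd hx₀ h
  · exact continuous_sInf_rng.2 fun t ht => ht.2.2
  · intro E _ _ _ _ _ _ f hf
    refine ⟨⟨Finsupp.linearCombination ℝ f, hcont E f hf⟩, fun x => ?_, fun G hG => ?_⟩
    · change Finsupp.linearCombination ℝ f (Finsupp.single x 1) = f x
      simp
    · apply ContinuousLinearMap.coe_injective
      refine Finsupp.lhom_ext' fun x => LinearMap.ext_ring ?_
      have := hG x
      simpa using this

/-- The theorem: if `X` is metrizable and `sp_2(X)` is a `k`-space, then `X` is locally compact and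
second countable and all the levels `sp_n(X)`, in particular `sp_4(X)`, and `V(X)` are
`k`-spaces. -/
theorem main {X V : Type u} [TopologicalSpace X] [TopologicalSpace.MetrizableSpace X]
    [AddCommGroup V] [Module ℝ V] [TopologicalSpace V] (i : X → V) (h : IsFreeTVS i)
    (hk : IsKSpace (sp i 2)) :
    LocallyCompactSpace X ∧ SecondCountableTopology X ∧ IsKSpace V ∧
      ∀ n, IsKSpace (sp i n) := by
  let _ : MetricSpace X := TopologicalSpace.metrizableSpaceMetric X
  have h1 := locallyCompact h hk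
  have h2 := secondCountable h hk
  have := h.isTopologicalAddGroup
  have := h.continuousSMul
  have := h.t2Space
  refine ⟨h1, h2, ?_⟩
  by_cases hX : Nonempty X
  · obtain ⟨x₀⟩ := hX
    let K₀ : CompactExhaustion X := CompactExhaustion.choice X
    let K : ℕ → Set X := fun n => insert x₀ (K₀ n)
    have hK : ∀ n, IsCompact (K n) := fun n => (K₀.isCompact n).insert x₀
    have hKm : Monotone K := fun n m hnm => insert_subset_insert (K₀.subset hnm)
    have hKne : ∀ n, (K n).Nonempty := fun n => insert_nonempty _ _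
    have hKnhds : ∀ x, ∃ n, K n ∈ 𝓝 x := by
      intro x
      obtain ⟨n, hn⟩ := K₀.exists_mem_nhds x
      exact ⟨n, mem_of_superset hn (subset_insert _ _)⟩
    refine ⟨fun C hC => ?_, isKSpace_sp h hK hKm hKne hKnhds⟩
    refine isClosed_of_forall h hK hKm hKne hKnhds fun n => ?_
    have hB : IsCompact (spc i (K n) n n) := isCompact_spc h.continuous (hK n) _ _
    have h3 : IsCompact (Subtype.val ⁻¹' C : Set (spc i (K n) n n)) := by
      have : CompactSpace (spc i (K n) n n) := isCompact_iff_compactSpace.1 hB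
      exact (hC _ hB).isCompact
    have h4 := h3.image continuous_subtype_val
    rw [Subtype.image_preimage_coe, inter_comm] at h4
    exact h4.isClosed
  · rw [not_nonempty_iff] at hX
    have hsub : Subsingleton V := by
      have h3 := span_eq_top h
      rw [range_eq_empty, Submodule.span_empty] at h3
      exact (Submodule.subsingleton_iff ℝ).1 (subsingleton_of_bot_eq_top h3)
    refine ⟨fun C _ => ?_, fun n C _ => ?_⟩
    · exact (Set.toFinite C).isClosed
    · exact (Set.toFinite C).isClosed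

/-- The answer to Q1 is yes, and the free topological vector space exists. -/
theorem result :
    (∀ (X : Type u) [TopologicalSpace X] [T35Space X], ∃ (V : Type u) (_ : AddCommGroup V)
      (_ : Module ℝ V) (_ : TopologicalSpace V) (i : X → V), IsFreeTVS i) ∧
    (∀ (X V : Type u) [TopologicalSpace X] [TopologicalSpace.MetrizableSpace X]
      [AddCommGroup V] [Module ℝ V] [TopologicalSpace V] (i : X → V), IsFreeTVS i →
      IsKSpace (sp i 2) → IsKSpace (sp i 4) ∧ IsKSpace V ∧ (∀ n, IsKSpace (sp i n)) ∧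
        LocallyCompactSpace X ∧ SecondCountableTopology X) := by
  refine ⟨fun X _ _ => exists_free X, ?_⟩
  intro X V _ _ _ _ _ i h hk
  obtain ⟨h1, h2, h3, h4⟩ := main i h hk
  exact ⟨h4 4, h3, h4, h1, h2⟩

end Pool.Agent.Results.MP_24cde2_gt.FreeTVS
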